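import Pool.Agent.H442R2.AO.Defs

/-! Task FI of the AO project: final assembly. -/

namespace Pool.Agent.H442R2.AO

open Finset

namespace TaskFI

theorem MI_comp {R K : ℕ} (a : Fin K → ℤ) (h : MI a) (f : Fin R → Fin K)
    (hf : Function.Injective f) : MI (a ∘ f) := by
  refine ⟨fun i => h.1 (f i), ?_⟩
  intro m hm
  have key : ∏ j, (a j : ℚ) ^ (Function.extend f m 0 j) = 1 := by
    rw [← hm]
    have h1 : ∏ j ∈ univ.image f, (a j : ℚ) ^ (Function.extend f m 0 j) =
        ∏ i, ((a ∘ f) i : ℚ) ^ (m i) := by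
      rw [Finset.prod_image (fun x _ y _ hxy => hf hxy)]
      refine Finset.prod_congr rfl ?_
      intro i _
      rw [hf.extend_apply]
      rfl
    rw [← h1]
    symm
    refine Finset.prod_subset (subset_univ _) ?_
    intro j _ hj
    rw [Function.extend_apply' _ _ _ (by
      rintro ⟨i, hi⟩
      exact hj (mem_image.2 ⟨i, mem_univ _, hi⟩))]
    simp
  have h2 := h.2 _ key
  funext i
  have := congrFun h2 (f i)
  rwa [hf.extend_apply] at this

theorem ncast_tendsto : Filter.Tendsto (fun x : ℕ => (x : ℝ)) Filter.atTop Filter.atTop :=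
  tendsto_natCast_atTop_atTop

theorem large1 (A ε : ℝ) (hε : 0 < ε) :
    ∀ᶠ x : ℕ in Filter.atTop, A * Real.log x ≤ (x : ℝ) ^ ε := by
  have h := (isLittleO_log_rpow_atTop hε).bound (c := 1 / (|A| + 1)) (by positivity)
  have h2 := ncast_tendsto.eventually h
  filter_upwards [h2, Filter.eventually_ge_atTop 1] with x hx hx1
  have hx1' : (1 : ℝ) ≤ x := by exact_mod_cast hx1
  have hl : 0 ≤ Real.log x := Real.log_nonneg hx1'
  rw [Real.norm_of_nonneg hl, Real.norm_of_nonneg (by positivity)] at hx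
  have hA : 0 < |A| + 1 := by positivity
  have h3 : (|A| + 1) * Real.log x ≤ (x : ℝ) ^ ε := by
    calc (|A| + 1) * Real.log x ≤ (|A| + 1) * (1 / (|A| + 1) * (x : ℝ) ^ ε) :=
          mul_le_mul_of_nonneg_left hx hA.le
      _ = (x : ℝ) ^ ε := by field_simp
  have h4 : A * Real.log x ≤ (|A| + 1) * Real.log x :=
    mul_le_mul_of_nonneg_right (by linarith [le_abs_self A]) hl
  linarith

theorem large2 (ε : ℝ) (hε : 0 < ε) :
    ∀ᶠ x : ℕ in Filter.atTop, 2 * Real.log x ^ 2 ≤ (x : ℝ) ^ ε := by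
  filter_upwards [large1 2 (ε / 2) (by positivity), Filter.eventually_ge_atTop 1] with x hx hx1
  have hx1' : (1 : ℝ) ≤ x := by exact_mod_cast hx1
  have hl : 0 ≤ Real.log x := Real.log_nonneg hx1'
  have h1 : (x : ℝ) ^ ε = (x : ℝ) ^ (ε / 2) * (x : ℝ) ^ (ε / 2) := by
    rw [← Real.rpow_add (by linarith)]
    congr 1
    ring
  rw [h1]
  have h2 : (2 * Real.log x) * (2 * Real.log x) ≤ (x : ℝ) ^ (ε / 2) * (x : ℝ) ^ (ε / 2) :=
    mul_le_mul hx hx (by positivity) (by positivity)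
  nlinarith [sq_nonneg (Real.log x)]

theorem log_large (B : ℝ) : ∀ᶠ x : ℕ in Filter.atTop, B ≤ Real.log x :=
  (Real.tendsto_log_atTop.comp ncast_tendsto).eventually_ge_atTop B

theorem card_PP (n : ℕ) : (PP n).card = Nat.primeCounting n := by
  unfold PP Nat.primeCounting Nat.primeCounting'
  rw [Nat.count_eq_card_filter_range]
  congr 1
  ext p
  simp only [mem_filter, mem_Icc, mem_range]
  constructor
  · rintro ⟨⟨h1, h2⟩, h3⟩
    exact ⟨by omega, h3⟩
  · rintro ⟨h1, h2⟩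
    exact ⟨⟨h2.one_lt.le, by omega⟩, h2⟩

theorem pi_low : ∀ᶠ x : ℕ in Filter.atTop, (x : ℝ) / (2 * Real.log x) ≤ ((PP x).card : ℝ) := by
  filter_upwards [large1 20 1 one_pos, Filter.eventually_ge_atTop 20, log_large 1] with x hx hx1 hl
  have hx1' : (20 : ℝ) ≤ x := by exact_mod_cast hx1
  rw [Real.rpow_one] at hx
  have h := Chebyshev.pi_ge x
  rw [card_PP]
  refine le_trans ?_ h
  have hl0 : 0 < Real.log x := by linarith
  have h1 : Real.log ((x : ℝ) + 1) ≤ Real.log 2 + Real.log x := by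
    rw [← Real.log_mul (by norm_num) (by linarith)]
    exact Real.log_le_log (by linarith) (by linarith)
  have h2 := Real.log_two_gt_d9
  have h3 := Real.log_two_lt_d9
  rw [div_le_div_iff₀ (by positivity) hl0]
  have h4 : (x : ℝ) ≤ 2 * (x * Real.log 2 - Real.log (x + 1)) := by
    have : (x : ℝ) * 0.6931471803 ≤ x * Real.log 2 := mul_le_mul_of_nonneg_left h2.le (by linarith)
    linarith
  nlinarith

theorem core (K : ℕ) (P Exc : Finset ℕ) (bd : Fin K → Finset ℕ) (hb : ∀ i, bd i ⊆ P) (D : ℝ)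
    (hD0 : 0 ≤ D)
    (hD : ∀ p ∈ P, p ∉ Exc → ((univ.filter (fun i => p ∈ bd i)).card : ℝ) ≤ D) :
    ∑ i, ((bd i).card : ℝ) ≤ K * Exc.card + D * P.card := by
  have h1 : ∀ i, (bd i \ Exc) = (P \ Exc).filter (fun p => p ∈ bd i) := by
    intro i
    ext p
    simp only [mem_sdiff, mem_filter]
    constructor
    · rintro ⟨h, h'⟩
      exact ⟨⟨hb i h, h'⟩, h⟩
    · rintro ⟨⟨_, h'⟩, h⟩
      exact ⟨h, h'⟩
  have h2 : ∑ i, ((bd i \ Exc).card : ℝ) = ∑ p ∈ P \ Exc, ((univ.filter (fun i => p ∈ bd i)).card : ℝ) := by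
    have : ∀ i, ((bd i \ Exc).card : ℝ) = ∑ p ∈ P \ Exc, if p ∈ bd i then (1 : ℝ) else 0 := by
      intro i
      rw [h1 i, Finset.card_filter]
      push_cast
      rfl
    rw [Finset.sum_congr rfl (fun i _ => this i), Finset.sum_comm]
    refine Finset.sum_congr rfl ?_
    intro p _
    rw [Finset.card_filter]
    push_cast
    rfl
  have h3 : ∀ i, ((bd i).card : ℝ) ≤ Exc.card + ((bd i \ Exc).card : ℝ) := by
    intro i
    have : (bd i).card ≤ Exc.card + (bd i \ Exc).card := by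
      calc (bd i).card ≤ (Exc ∪ (bd i \ Exc)).card := by
            refine Finset.card_le_card ?_
            intro p hp
            by_cases h : p ∈ Exc
            · exact mem_union_left _ h
            · exact mem_union_right _ (mem_sdiff.2 ⟨hp, h⟩)
        _ ≤ _ := Finset.card_union_le _ _
    exact_mod_cast this
  calc ∑ i, ((bd i).card : ℝ) ≤ ∑ i, ((Exc.card : ℝ) + ((bd i \ Exc).card : ℝ)) :=
        Finset.sum_le_sum (fun i _ => h3 i)
    _ = K * Exc.card + ∑ p ∈ P \ Exc, ((univ.filter (fun i => p ∈ bd i)).card : ℝ) := by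
        rw [Finset.sum_add_distrib, h2]
        simp
    _ ≤ K * Exc.card + D * P.card := by
        have h4 : ∑ p ∈ P \ Exc, ((univ.filter (fun i => p ∈ bd i)).card : ℝ) ≤
            ∑ p ∈ P \ Exc, D := Finset.sum_le_sum (fun p hp =>
              hD p (mem_sdiff.1 hp).1 (mem_sdiff.1 hp).2)
        rw [Finset.sum_const, nsmul_eq_mul] at h4
        have h5 : ((P \ Exc).card : ℝ) ≤ P.card := by
          exact_mod_cast Finset.card_le_card sdiff_subset
        have h6 : ((P \ Exc).card : ℝ) * D ≤ P.card * D := mul_le_mul_of_nonneg_right h5 hD0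
        linarith

/-- the numerical condition of IX -/
theorem numer (δ : ℝ) (hδ : 0 < δ) (hδ1 : δ ≤ 1) (x p : ℕ) (hx : 3 ≤ x) (hlog : 1 ≤ Real.log x)
    (h1 : 2 * Real.log x ^ 2 ≤ (x : ℝ) ^ (δ / 2)) (h2 : 2 * Real.log x ^ 2 ≤ (x : ℝ) ^ (1 : ℝ))
    (hp : (x : ℝ) / Real.log x ^ 2 < p) :
    (x : ℝ) ^ (δ / 2) * (p : ℝ) ^ (1 - δ) < (p : ℝ) - 1 := by
  have hx0 : (0 : ℝ) < x := by
    have : 0 < x := by omega
    exact_mod_cast this
  have hL : 0 < Real.log x ^ 2 := by positivity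
  have hp2 : (2 : ℝ) < p := by
    refine lt_of_le_of_lt ?_ hp
    rw [le_div_iff₀ hL]
    rwa [Real.rpow_one] at h2
  have hp0 : (0 : ℝ) < p := by linarith
  have h3 : 2 * (x : ℝ) ^ (δ / 2) ≤ (p : ℝ) ^ δ := by
    have h4 : ((x : ℝ) / Real.log x ^ 2) ^ δ ≤ (p : ℝ) ^ δ :=
      Real.rpow_le_rpow (by positivity) hp.le hδ.le
    refine le_trans ?_ h4
    rw [Real.div_rpow hx0.le hL.le, le_div_iff₀ (by positivity)]
    have h5 : (Real.log x ^ 2) ^ δ ≤ Real.log x ^ 2 := by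
      calc (Real.log x ^ 2) ^ δ ≤ (Real.log x ^ 2) ^ (1 : ℝ) :=
            Real.rpow_le_rpow_of_exponent_le (one_le_pow₀ hlog) hδ1
        _ = Real.log x ^ 2 := Real.rpow_one _
    have h6 : (x : ℝ) ^ δ = (x : ℝ) ^ (δ / 2) * (x : ℝ) ^ (δ / 2) := by
      rw [← Real.rpow_add hx0]
      congr 1
      ring
    rw [h6]
    have h7 : 0 < (x : ℝ) ^ (δ / 2) := by positivity
    calc 2 * (x : ℝ) ^ (δ / 2) * (Real.log x ^ 2) ^ δ ≤ 2 * (x : ℝ) ^ (δ / 2) * Real.log x ^ 2 :=
          mul_le_mul_of_nonneg_left h5 (by positivity)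
      _ = (x : ℝ) ^ (δ / 2) * (2 * Real.log x ^ 2) := by ring
      _ ≤ (x : ℝ) ^ (δ / 2) * (x : ℝ) ^ (δ / 2) := mul_le_mul_of_nonneg_left h1 h7.le
  have h8 : (p : ℝ) ^ δ * (p : ℝ) ^ (1 - δ) = p := by
    rw [← Real.rpow_add hp0]
    simp
  have h9 : 0 < (p : ℝ) ^ (1 - δ) := by positivity
  have h10 : 2 * (x : ℝ) ^ (δ / 2) * (p : ℝ) ^ (1 - δ) ≤ p := by
    calc 2 * (x : ℝ) ^ (δ / 2) * (p : ℝ) ^ (1 - δ) ≤ (p : ℝ) ^ δ * (p : ℝ) ^ (1 - δ) :=
          mul_le_mul_of_nonneg_right h3 h9.le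
      _ = p := h8
  linarith

/-- a prime outside the exceptional sets is bad for at most `R / δ'` of the bases -/
theorem fiber (hIX : St_IX) (hPF : St_PF) (K R : ℕ) (hR : 1 ≤ R) (δ δ' : ℝ) (hδ' : 0 < δ')
    (x p : ℕ) (hx : 3 ≤ x) (a : Fin K → ℤ) (hp : p ∈ PP x) (hsm : p ∉ smo δ δ' x)
    (hnum : (x : ℝ) ^ (δ / 2) * (p : ℝ) ^ (1 - δ) < (p : ℝ) - 1)
    (hcom : ∀ f : Fin R → Fin K, Function.Injective f → p ∉ com (a ∘ f) x ((x : ℝ) ^ (1 - δ'))) :
    ((univ.filter (fun i => p ∈ bad δ x (a i))).card : ℝ) ≤ R / δ' := by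
  classical
  have hpx : 1 ≤ p ∧ p ≤ x := mem_Icc.1 (mem_filter.1 hp).1
  have hpp : p.Prime := (mem_filter.1 hp).2
  have hx0 : (0 : ℝ) < x := by
    have : 0 < x := by omega
    exact_mod_cast this
  have hq : ∀ i : Fin K, ∃ q : ℕ, p ∈ bad δ x (a i) → (q.Prime ∧ (x : ℝ) ^ δ' < q ∧ q ∣ p - 1 ∧
      (a i : ZMod p) ^ ((p - 1) / q) = 1) := by
    intro i
    by_cases h : p ∈ bad δ x (a i)
    · obtain ⟨q, hq⟩ := hIX δ δ' x p (a i) h hsm hnum
      exact ⟨q, fun _ => hq⟩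
    · exact ⟨0, fun h' => (h h').elim⟩
  choose q hq using hq
  set T : Finset ℕ := ((p - 1).primeFactors).filter (fun q : ℕ => (x : ℝ) ^ δ' < q) with hT
  have hp2 : 2 ≤ p := hpp.two_le
  have hTc : (T.card : ℝ) * δ' ≤ 1 := hPF x δ' (by omega) hδ' (p - 1) (by omega) (by omega)
  have hmaps : ∀ i ∈ univ.filter (fun i => p ∈ bad δ x (a i)), q i ∈ T := by
    intro i hi
    obtain ⟨h1, h2, h3, h4⟩ := hq i (mem_filter.1 hi).2
    rw [hT, mem_filter]
    refine ⟨?_, h2⟩
    rw [Nat.mem_primeFactors]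
    exact ⟨h1, h3, by omega⟩
  have hfib : ∀ b ∈ T, ((univ.filter (fun i => p ∈ bad δ x (a i))).filter (fun i => q i = b)).card ≤ R := by
    intro b hb
    by_contra hcon
    push Not at hcon
    set F := (univ.filter (fun i => p ∈ bad δ x (a i))).filter (fun i => q i = b) with hF
    let f : Fin R ↪o Fin K := F.orderEmbOfCardLe hcon.le
    have hfm : ∀ j, f j ∈ F := fun j => F.orderEmbOfCardLe_mem hcon.le j
    apply hcom f f.injective
    unfold com
    rw [mem_filter]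
    refine ⟨hp, (p - 1) / b, ?_, ?_, ?_⟩
    · obtain ⟨h1, h2, h3⟩ := Nat.mem_primeFactors.1 (mem_filter.1 hb).1
      exact Nat.div_pos (Nat.le_of_dvd (by omega) h2) h1.pos
    · have h1 := (mem_filter.1 hb).2
      have hxd : 0 < (x : ℝ) ^ δ' := by positivity
      calc (((p - 1) / b : ℕ) : ℝ) ≤ ((p - 1 : ℕ) : ℝ) / b := Nat.cast_div_le
        _ ≤ (x : ℝ) / (x : ℝ) ^ δ' := by
            refine div_le_div₀ hx0.le ?_ hxd h1.le
            exact_mod_cast (by omega : p - 1 ≤ x)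
        _ = (x : ℝ) ^ (1 - δ') := by
            rw [Real.rpow_sub hx0, Real.rpow_one]
    · intro j
      have h1 := mem_filter.1 (hfm j)
      have h2 := hq (f j) (mem_filter.1 h1.1).2
      rw [h1.2] at h2
      exact h2.2.2.2
  have hcard := Finset.card_le_mul_card_image_of_maps_to hmaps R hfib
  have h1 : ((univ.filter (fun i => p ∈ bad δ x (a i))).card : ℝ) ≤ R * T.card := by
    exact_mod_cast hcard
  refine h1.trans ?_
  rw [le_div_iff₀ hδ']
  have hR0 : (0 : ℝ) ≤ R := by positivity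
  calc (R : ℝ) * T.card * δ' = R * (T.card * δ') := by ring
    _ ≤ R * 1 := mul_le_mul_of_nonneg_left hTc hR0
    _ = R := mul_one _

end TaskFI

open TaskFI in
theorem FI (hSM : St_SM) (hIX : St_IX) (hGM : St_GM) (hPF : St_PF) : St_FI := by
  classical
  obtain ⟨C₁, hC₁, hSM⟩ := hSM
  have hC₁0 : 0 < C₁ := by linarith
  refine ⟨384 * C₁ ^ 2, by positivity, ?_⟩
  intro δ κ hδ hδ1 hκ hκ1 K hK
  have hK0 : (0 : ℝ) < K := lt_of_lt_of_le (by positivity) hK
  set δ' : ℝ := κ * δ / (8 * C₁) with hδ'def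
  have hδ'0 : 0 < δ' := by positivity
  have hδ'1 : δ' ≤ 1 / 8 := by
    rw [hδ'def, div_le_iff₀ (by positivity)]
    nlinarith
  set R : ℕ := ⌈2 / δ'⌉₊ with hRdef
  have hRge : 2 / δ' ≤ R := Nat.le_ceil _
  have hRlt : (R : ℝ) < 2 / δ' + 1 := Nat.ceil_lt_add_one (by positivity)
  have hR1 : 1 ≤ R := Nat.one_le_ceil_iff.2 (by positivity)
  have hR0 : (0 : ℝ) < R := by exact_mod_cast hR1
  obtain ⟨CR, hCR, hGM⟩ := hGM R hR1
  obtain ⟨x₁, hx₁⟩ := hSM δ δ' hδ hδ1 hδ'0 (by linarith)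
  refine ⟨δ' / 4, by positivity, ?_⟩
  have hev := (((((((pi_low.and (log_large (16 / κ))).and (log_large 1)).and
    (large1 ((K : ℝ) ^ R * CR * 16 / κ) (δ' / 4) (by positivity))).and
    (large2 (δ / 2) (by positivity))).and (large2 1 one_pos)).and
    (Filter.eventually_ge_atTop x₁)).and (Filter.eventually_ge_atTop 3))
  obtain ⟨x₀, hx₀⟩ := Filter.eventually_atTop.1 hev
  refine ⟨x₀, ?_⟩
  intro x hx a hMI ha
  obtain ⟨⟨⟨⟨⟨⟨⟨e1, e2⟩, e3⟩, e4⟩, e5⟩, e6⟩, e7⟩, e8⟩ := hx₀ x hx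
  by_contra hcon
  push Not at hcon
  have hx3 : (3 : ℝ) ≤ x := by exact_mod_cast e8
  have hx0 : (0 : ℝ) < x := by linarith
  have hlog0 : 0 < Real.log x := by linarith
  have hπ : (0 : ℝ) < (PP x).card := lt_of_lt_of_le (by positivity) e1
  have hxl : (x : ℝ) / Real.log x ≤ 2 * (PP x).card := by
    have : (x : ℝ) / Real.log x = 2 * (x / (2 * Real.log x)) := by
      field_simp
    linarith
  -- the exceptional sets
  set A : Finset ℕ := (Icc 1 ⌊(x : ℝ) / Real.log x ^ 2⌋₊) with hA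
  set Cf : Finset ℕ := ((univ : Finset (Fin R → Fin K)).filter Function.Injective).biUnion
    (fun f => com (a ∘ f) x ((x : ℝ) ^ (1 - δ'))) with hCf
  set Exc : Finset ℕ := A ∪ (smo δ δ' x ∪ Cf) with hExc
  have hAc : (A.card : ℝ) ≤ κ / 8 * (PP x).card := by
    have h1 : (A.card : ℝ) ≤ (x : ℝ) / Real.log x ^ 2 := by
      rw [hA, Nat.card_Icc]
      have := Nat.floor_le (show 0 ≤ (x : ℝ) / Real.log x ^ 2 by positivity)
      simpa using this
    refine h1.trans ?_
    have h2 : (x : ℝ) / Real.log x ^ 2 = (x / Real.log x) * (1 / Real.log x) := by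
      field_simp
    have h3 : 1 / Real.log x ≤ κ / 16 := by
      rw [div_le_div_iff₀ hlog0 (by norm_num)]
      rw [div_le_iff₀ hκ] at e2
      linarith
    rw [h2]
    calc (x : ℝ) / Real.log x * (1 / Real.log x) ≤ 2 * (PP x).card * (κ / 16) :=
          mul_le_mul hxl h3 (by positivity) (by positivity)
      _ = κ / 8 * (PP x).card := by ring
  have hsmc : ((smo δ δ' x).card : ℝ) ≤ κ / 4 * (PP x).card := by
    refine (hx₁ x e7).trans ?_
    have h1 : C₁ * (δ' / δ) = κ / 8 := by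
      rw [hδ'def]
      field_simp
    rw [h1]
    calc κ / 8 * ((x : ℝ) / Real.log x) ≤ κ / 8 * (2 * (PP x).card) :=
          mul_le_mul_of_nonneg_left hxl (by positivity)
      _ = κ / 4 * (PP x).card := by ring
  have hcf : ∀ f ∈ (univ : Finset (Fin R → Fin K)).filter Function.Injective,
      ((com (a ∘ f) x ((x : ℝ) ^ (1 - δ'))).card : ℝ) ≤ CR * (x : ℝ) ^ (1 - δ' / 4) := by
    intro f hf
    have hinj : Function.Injective f := (mem_filter.1 hf).2
    have hy1 : (1 : ℝ) ≤ (x : ℝ) ^ (1 - δ') := Real.one_le_rpow (by linarith) (by linarith)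
    have hL1 : (1 : ℝ) ≤ (x : ℝ) ^ (δ' / 4) := Real.one_le_rpow (by linarith) (by positivity)
    have h1 := hGM ((x : ℝ) ^ (1 - δ')) ((x : ℝ) ^ (δ' / 4)) hy1 hL1 x (a ∘ f)
      (MI_comp a hMI f hinj) (fun i => ha (f i))
    refine h1.trans ?_
    rw [mul_assoc]
    refine mul_le_mul_of_nonneg_left ?_ hCR.le
    rw [← Real.rpow_mul hx0.le, ← Real.rpow_add hx0]
    refine Real.rpow_le_rpow_of_exponent_le (by linarith) ?_
    have h2 : 1 / (R : ℝ) ≤ δ' / 2 := by
      rw [div_le_div_iff₀ hR0 (by norm_num)]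
      rw [div_le_iff₀ hδ'0] at hRge
      linarith
    have h3 : (1 - δ') * (1 + 1 / (R : ℝ)) ≤ (1 - δ') * (1 + δ' / 2) :=
      mul_le_mul_of_nonneg_left (by linarith) (by linarith)
    nlinarith
  have hCfc : (Cf.card : ℝ) ≤ κ / 8 * (PP x).card := by
    have h1 : (Cf.card : ℝ) ≤ ∑ f ∈ (univ : Finset (Fin R → Fin K)).filter Function.Injective,
        ((com (a ∘ f) x ((x : ℝ) ^ (1 - δ'))).card : ℝ) := by
      have := Finset.card_biUnion_le (s := (univ : Finset (Fin R → Fin K)).filter Function.Injective)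
        (t := fun f => com (a ∘ f) x ((x : ℝ) ^ (1 - δ')))
      rw [← hCf] at this
      exact_mod_cast this
    have h2 : ∑ f ∈ (univ : Finset (Fin R → Fin K)).filter Function.Injective,
        ((com (a ∘ f) x ((x : ℝ) ^ (1 - δ'))).card : ℝ) ≤
        ((univ : Finset (Fin R → Fin K)).filter Function.Injective).card *
          (CR * (x : ℝ) ^ (1 - δ' / 4)) := by
      have := Finset.sum_le_sum hcf
      rw [Finset.sum_const, nsmul_eq_mul] at this
      exact this
    have h3 : ((((univ : Finset (Fin R → Fin K)).filter Function.Injective).card : ℕ) : ℝ) ≤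
        (K : ℝ) ^ R := by
      have h4 : ((univ : Finset (Fin R → Fin K)).filter Function.Injective).card ≤ K ^ R := by
        calc ((univ : Finset (Fin R → Fin K)).filter Function.Injective).card
            ≤ (univ : Finset (Fin R → Fin K)).card := Finset.card_filter_le _ _
          _ = K ^ R := by simp
      exact_mod_cast h4
    have hpow : 0 < (x : ℝ) ^ (1 - δ' / 4) := by positivity
    have h5 : (Cf.card : ℝ) ≤ (K : ℝ) ^ R * (CR * (x : ℝ) ^ (1 - δ' / 4)) :=
      h1.trans (h2.trans (mul_le_mul_of_nonneg_right h3 (by positivity)))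
    refine h5.trans ?_
    -- K^R * CR * 16 / κ * log x ≤ x^(δ'/4)
    have h6 : (x : ℝ) ^ (1 - δ' / 4) * (x : ℝ) ^ (δ' / 4) = x := by
      rw [← Real.rpow_add hx0]
      simp
    have h7 : (K : ℝ) ^ R * (CR * (x : ℝ) ^ (1 - δ' / 4)) * (16 / κ * Real.log x) ≤ x := by
      calc (K : ℝ) ^ R * (CR * (x : ℝ) ^ (1 - δ' / 4)) * (16 / κ * Real.log x)
          = (x : ℝ) ^ (1 - δ' / 4) * ((K : ℝ) ^ R * CR * 16 / κ * Real.log x) := by ring
        _ ≤ (x : ℝ) ^ (1 - δ' / 4) * (x : ℝ) ^ (δ' / 4) := mul_le_mul_of_nonneg_left e4 hpow.le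
        _ = x := h6
    have h8 : (K : ℝ) ^ R * (CR * (x : ℝ) ^ (1 - δ' / 4)) ≤ x / (16 / κ * Real.log x) := by
      rw [le_div_iff₀ (by positivity)]
      exact h7
    refine h8.trans ?_
    have h9 : (x : ℝ) / (16 / κ * Real.log x) = κ / 16 * (x / Real.log x) := by
      field_simp
    rw [h9]
    calc κ / 16 * ((x : ℝ) / Real.log x) ≤ κ / 16 * (2 * (PP x).card) :=
          mul_le_mul_of_nonneg_left hxl (by positivity)
      _ = κ / 8 * (PP x).card := by ring
  have hExcc : (Exc.card : ℝ) ≤ κ / 2 * (PP x).card := by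
    have h1 : Exc.card ≤ A.card + ((smo δ δ' x).card + Cf.card) :=
      (Finset.card_union_le _ _).trans (Nat.add_le_add_left (Finset.card_union_le _ _) _)
    have h2 : (Exc.card : ℝ) ≤ A.card + ((smo δ δ' x).card + Cf.card) := by exact_mod_cast h1
    linarith
  -- the count
  have hsum := core K (PP x) Exc (fun i => bad δ x (a i)) (fun i => Finset.filter_subset _ _)
    (3 / δ' ^ 2) (by positivity) (by
      intro p hp hpE
      have hpA : p ∉ A := fun h => hpE (mem_union_left _ h)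
      have hps : p ∉ smo δ δ' x := fun h => hpE (mem_union_right _ (mem_union_left _ h))
      have hpC : p ∉ Cf := fun h => hpE (mem_union_right _ (mem_union_right _ h))
      have hp1 : 1 ≤ p := (mem_Icc.1 (mem_filter.1 hp).1).1
      have hplt : (x : ℝ) / Real.log x ^ 2 < p := by
        by_contra h
        push Not at h
        exact hpA (mem_Icc.2 ⟨hp1, Nat.le_floor h⟩)
      have h1 := fiber hIX hPF K R hR1 δ δ' hδ'0 x p e8 a hp hps
        (numer δ hδ hδ1 x p e8 e3 e5 e6 hplt) (by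
          intro f hf hmem
          apply hpC
          rw [hCf, mem_biUnion]
          exact ⟨f, mem_filter.2 ⟨mem_univ _, hf⟩, hmem⟩)
      refine h1.trans ?_
      rw [div_le_div_iff₀ hδ'0 (by positivity)]
      have h2 : (R : ℝ) * δ' ≤ 3 := by
        have h3 : (R : ℝ) * δ' ≤ (2 / δ' + 1) * δ' := mul_le_mul_of_nonneg_right hRlt.le hδ'0.le
        have h4 : (2 / δ' + 1) * δ' = 2 + δ' := by
          field_simp
        linarith
      calc (R : ℝ) * δ' ^ 2 = (R * δ') * δ' := by ring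
        _ ≤ 3 * δ' := mul_le_mul_of_nonneg_right h2 hδ'0.le)
  have hKne : (univ : Finset (Fin K)).Nonempty := by
    have : 0 < K := by exact_mod_cast hK0
    exact ⟨⟨0, this⟩, mem_univ _⟩
  have hlow : (K : ℝ) * (κ * (PP x).card) < ∑ i, ((bad δ x (a i)).card : ℝ) := by
    have := Finset.sum_lt_sum_of_nonempty hKne (fun i _ => hcon i)
    rw [Finset.sum_const, nsmul_eq_mul] at this
    simpa using this
  have h1 : (K : ℝ) * (κ * (PP x).card) < K * (κ / 2 * (PP x).card) + 3 / δ' ^ 2 * (PP x).card := by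
    have : (K : ℝ) * Exc.card ≤ K * (κ / 2 * (PP x).card) :=
      mul_le_mul_of_nonneg_left hExcc hK0.le
    linarith
  have h2 : (K : ℝ) * κ / 2 * (PP x).card < 3 / δ' ^ 2 * (PP x).card := by nlinarith
  have h3 : (K : ℝ) * κ / 2 < 3 / δ' ^ 2 := lt_of_mul_lt_mul_right h2 hπ.le
  have h4 : 3 / δ' ^ 2 = κ / 2 * (384 * C₁ ^ 2 / (κ ^ 3 * δ ^ 2)) := by
    rw [hδ'def]
    field_simp
    ring
  rw [h4] at h3
  have h5 : κ / 2 * (384 * C₁ ^ 2 / (κ ^ 3 * δ ^ 2)) ≤ κ / 2 * K :=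
    mul_le_mul_of_nonneg_left hK (by positivity)
  linarith

end Pool.Agent.H442R2.AO
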