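import Pool.Agent.H442R2.AO.Defs

/-! AO project, task GM (helper864): the counting argument of Gupta and Murty. -/

namespace Pool.Agent.H442R2.AO

open Finset

namespace TaskGM

/-- the integer divisible by `p` -/
def Z {R : ℕ} (a m : Fin R → ℤ) : ℤ :=
  ∏ i, a i ^ (m i).toNat - ∏ i, a i ^ (-(m i)).toNat

theorem Z_ne {R : ℕ} {a : Fin R → ℤ} (ha : MI a) (m : Fin R → ℤ) (hm : m ≠ 0) : Z a m ≠ 0 := by
  intro h
  apply hm
  apply ha.2
  unfold Z at h
  have h1 : (∏ i, a i ^ (m i).toNat : ℤ) = ∏ i, a i ^ (-(m i)).toNat := sub_eq_zero.1 h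
  have h2 : (∏ i, (a i : ℚ) ^ (m i).toNat) = ∏ i, (a i : ℚ) ^ (-(m i)).toNat := by
    exact_mod_cast h1
  have h3 : ∀ i, (a i : ℚ) ^ (m i) = (a i : ℚ) ^ (m i).toNat / (a i : ℚ) ^ (-(m i)).toNat := by
    intro i
    have h4 : (a i : ℚ) ≠ 0 := by exact_mod_cast ha.1 i
    rw [← zpow_natCast, ← zpow_natCast, ← zpow_sub₀ h4, Int.toNat_sub_toNat_neg]
  rw [Finset.prod_congr rfl fun i _ => h3 i, Finset.prod_div_distrib, h2]
  apply div_self
  rw [Finset.prod_ne_zero_iff]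
  intro i _
  exact pow_ne_zero _ (by exact_mod_cast ha.1 i)

theorem Z_log {R : ℕ} {a m : Fin R → ℤ} {L : ℝ} (hL : 1 ≤ L)
    (hb : ∀ i, |(a i : ℝ)| ≤ Real.exp L) (T : ℕ) (hT : ∀ i, |m i| ≤ T) :
    |(Z a m : ℝ)| ≤ 2 * Real.exp (T * R * L) := by
  have h1 : ∀ k : Fin R → ℕ, (∀ i, k i ≤ T) →
      |(∏ i, (a i : ℝ) ^ k i)| ≤ Real.exp (T * R * L) := by
    intro k hk
    rw [Finset.abs_prod]
    calc ∏ i, |(a i : ℝ) ^ k i| ≤ ∏ _i : Fin R, Real.exp (T * L) := by
          apply Finset.prod_le_prod (fun i _ => abs_nonneg _)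
          intro i _
          rw [abs_pow]
          calc |(a i : ℝ)| ^ k i ≤ Real.exp L ^ k i := pow_le_pow_left₀ (abs_nonneg _) (hb i) _
            _ ≤ Real.exp L ^ T := pow_le_pow_right₀ (Real.one_le_exp (by linarith)) (hk i)
            _ = Real.exp (T * L) := by rw [← Real.exp_nat_mul]
      _ = Real.exp (T * R * L) := by
          rw [Finset.prod_const, Finset.card_univ, Fintype.card_fin, ← Real.exp_nat_mul]
          congr 1
          ring
  have h2 : ((Z a m : ℤ) : ℝ) = ∏ i, (a i : ℝ) ^ (m i).toNat - ∏ i, (a i : ℝ) ^ (-(m i)).toNat := by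
    unfold Z
    push_cast
    rfl
  rw [h2]
  refine (abs_sub _ _).trans ?_
  have h3 := h1 (fun i => (m i).toNat) (fun i => by
    have := hT i
    rw [abs_le] at this
    omega)
  have h4 := h1 (fun i => (-(m i)).toNat) (fun i => by
    have := hT i
    rw [abs_le] at this
    omega)
  linarith

theorem card_pf (n : ℕ) (hn : n ≠ 0) : (2:ℝ) ^ n.primeFactors.card ≤ n := by
  have h1 : 2 ^ n.primeFactors.card ≤ ∏ p ∈ n.primeFactors, p := by
    rw [← Finset.prod_const]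
    apply Finset.prod_le_prod'
    intro p hp
    exact (Nat.prime_of_mem_primeFactors hp).two_le
  have h2 : ∏ p ∈ n.primeFactors, p ≤ n := Nat.le_of_dvd (Nat.pos_of_ne_zero hn)
    (Nat.prod_primeFactors_dvd n)
  exact_mod_cast h1.trans h2

theorem card_Z {R : ℕ} (hR : 1 ≤ R) {a m : Fin R → ℤ} {L : ℝ} (hL : 1 ≤ L)
    (hb : ∀ i, |(a i : ℝ)| ≤ Real.exp L) (T : ℕ) (hT1 : 1 ≤ T) (hT : ∀ i, |m i| ≤ T)
    (hZ : Z a m ≠ 0) : ((Z a m).natAbs.primeFactors.card : ℝ) ≤ 3 * (T * R * L) := by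
  have h1 := card_pf (Z a m).natAbs (Int.natAbs_ne_zero.2 hZ)
  have h2 : (((Z a m).natAbs : ℕ) : ℝ) = |(Z a m : ℝ)| := by
    rw [Nat.cast_natAbs, Int.cast_abs]
  rw [h2] at h1
  have h3 := h1.trans (Z_log hL hb T hT)
  have h4 := Real.log_le_log (by positivity) h3
  rw [Real.log_pow, Real.log_mul (by norm_num) (Real.exp_pos _).ne', Real.log_exp] at h4
  have h5 : (0.6931471803 : ℝ) < Real.log 2 := Real.log_two_gt_d9
  have h6 : Real.log 2 < 0.6931471808 := Real.log_two_lt_d9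
  have hT' : (1:ℝ) ≤ T := by exact_mod_cast hT1
  have hR' : (1:ℝ) ≤ R := by exact_mod_cast hR
  have h7 : 1 ≤ (T:ℝ) * R * L := by
    have h8 : (1:ℝ) ≤ T * R := by nlinarith
    nlinarith
  have h9 : (0:ℝ) ≤ ((Z a m).natAbs.primeFactors.card : ℝ) := Nat.cast_nonneg _
  nlinarith

theorem pigeon {R : ℕ} {a : Fin R → ℤ} {p : ℕ} (hp : p.Prime) {M : ℕ} (hM : 1 ≤ M)
    (h : ∀ i, (a i : ZMod p) ^ M = 1) (T : ℕ) (hT : M < (T + 1) ^ R) :
    ∃ m : Fin R → ℤ, m ≠ 0 ∧ (∀ i, |m i| ≤ T) ∧ (p : ℤ) ∣ Z a m := by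
  classical
  have : Fact p.Prime := ⟨hp⟩
  have hmaps : ∀ n ∈ (univ : Finset (Fin R → Fin (T + 1))),
      (∏ i, (a i : ZMod p) ^ (n i : ℕ)) ∈ (Polynomial.nthRoots M (1 : ZMod p)).toFinset := by
    intro n _
    rw [Multiset.mem_toFinset, Polynomial.mem_nthRoots (by omega), ← Finset.prod_pow]
    apply Finset.prod_eq_one
    intro i _
    rw [← pow_mul, mul_comm, pow_mul, h i, one_pow]
  have hcard : (Polynomial.nthRoots M (1 : ZMod p)).toFinset.card <
      (univ : Finset (Fin R → Fin (T + 1))).card := by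
    refine lt_of_le_of_lt ((Multiset.toFinset_card_le _).trans (Polynomial.card_nthRoots M 1)) ?_
    rw [Finset.card_univ, Fintype.card_fun, Fintype.card_fin, Fintype.card_fin]
    exact hT
  obtain ⟨n, -, n', -, hne, heq⟩ := Finset.exists_ne_map_eq_of_card_lt_of_maps_to hcard hmaps
  refine ⟨fun i => ((n i : ℕ) : ℤ) - ((n' i : ℕ) : ℤ), ?_, ?_, ?_⟩
  · intro h0
    apply hne
    funext i
    have h1 := congrFun h0 i
    simp only [Pi.zero_apply] at h1
    apply Fin.ext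
    omega
  · intro i
    have h1 := (n i).isLt
    have h2 := (n' i).isLt
    show |((n i : ℕ) : ℤ) - ((n' i : ℕ) : ℤ)| ≤ T
    rw [abs_le]
    omega
  · rw [← ZMod.intCast_zmod_eq_zero_iff_dvd]
    have hunit : ∀ i, (a i : ZMod p) ≠ 0 := by
      intro i h0
      have := h i
      rw [h0, zero_pow (by omega)] at this
      exact zero_ne_one this
    have hk : (∏ i, (a i : ZMod p) ^ min (n i : ℕ) (n' i : ℕ)) ≠ 0 := by
      rw [Finset.prod_ne_zero_iff]
      intro i _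
      exact pow_ne_zero _ (hunit i)
    have e1 : (∏ i, (a i : ZMod p) ^ (n i : ℕ)) =
        (∏ i, (a i : ZMod p) ^ min (n i : ℕ) (n' i : ℕ)) *
          ∏ i, (a i : ZMod p) ^ (((n i : ℕ) : ℤ) - ((n' i : ℕ) : ℤ)).toNat := by
      rw [← Finset.prod_mul_distrib]
      refine Finset.prod_congr rfl fun i _ => ?_
      rw [← pow_add]
      congr 1
      omega
    have e2 : (∏ i, (a i : ZMod p) ^ (n' i : ℕ)) =
        (∏ i, (a i : ZMod p) ^ min (n i : ℕ) (n' i : ℕ)) *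
          ∏ i, (a i : ZMod p) ^ (-(((n i : ℕ) : ℤ) - ((n' i : ℕ) : ℤ))).toNat := by
      rw [← Finset.prod_mul_distrib]
      refine Finset.prod_congr rfl fun i _ => ?_
      rw [← pow_add]
      congr 1
      omega
    rw [e1, e2] at heq
    have h3 := mul_left_cancel₀ hk heq
    unfold Z
    push_cast
    rw [sub_eq_zero]
    exact h3

end TaskGM

theorem GM : St_GM := by
  classical
  intro R hR
  refine ⟨3 ^ (R + 1) * R, by positivity, ?_⟩
  intro y L hy hL x a ha hb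
  have hRr : (1:ℝ) ≤ R := by exact_mod_cast hR
  have hR0 : (0:ℝ) < R := by linarith
  set T : ℕ := ⌊y ^ (1 / (R:ℝ))⌋₊ with hTdef
  have hy1 : 1 ≤ y ^ (1 / (R:ℝ)) := Real.one_le_rpow hy (by positivity)
  have hT1 : 1 ≤ T := by
    rw [hTdef]
    exact Nat.le_floor (by exact_mod_cast hy1)
  have hTle : (T:ℝ) ≤ y ^ (1 / (R:ℝ)) := Nat.floor_le (by positivity)
  have hTlt : y ^ (1 / (R:ℝ)) < (T:ℝ) + 1 := Nat.lt_floor_add_one _
  have hyT : y < ((T:ℝ) + 1) ^ R := by
    have h1 : (y ^ (1 / (R:ℝ))) ^ R = y := by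
      rw [← Real.rpow_natCast, ← Real.rpow_mul (by linarith)]
      rw [one_div, inv_mul_cancel₀ hR0.ne', Real.rpow_one]
    rw [← h1]
    exact pow_lt_pow_left₀ hTlt (by positivity) (by omega)
  set box : Finset (Fin R → ℤ) :=
    (Fintype.piFinset (fun _ : Fin R => Icc (-(T:ℤ)) T)).filter (fun m => m ≠ 0) with hbox
  have hsub : com a x y ⊆ box.biUnion (fun m => (TaskGM.Z a m).natAbs.primeFactors) := by
    intro p hp
    unfold com PP at hp
    rw [Finset.mem_filter, Finset.mem_filter] at hp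
    obtain ⟨⟨-, hpp⟩, M, hM1, hMy, hM⟩ := hp
    have hMT : M < (T + 1) ^ R := by
      have : (M:ℝ) < ((T:ℝ) + 1) ^ R := lt_of_le_of_lt hMy hyT
      exact_mod_cast this
    obtain ⟨m, hm0, hmT, hdvd⟩ := TaskGM.pigeon hpp hM1 hM T hMT
    rw [Finset.mem_biUnion]
    refine ⟨m, ?_, ?_⟩
    · rw [hbox, Finset.mem_filter, Fintype.mem_piFinset]
      refine ⟨fun i => ?_, hm0⟩
      rw [Finset.mem_Icc]
      exact abs_le.1 (hmT i)
    · rw [Nat.mem_primeFactors]
      refine ⟨hpp, Int.natCast_dvd.1 hdvd, Int.natAbs_ne_zero.2 (TaskGM.Z_ne ha m hm0)⟩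
  have hcard1 : ((com a x y).card : ℝ) ≤
      ∑ m ∈ box, ((TaskGM.Z a m).natAbs.primeFactors.card : ℝ) := by
    have h1 := (Finset.card_le_card hsub).trans Finset.card_biUnion_le
    exact_mod_cast h1
  have hcard2 : ∑ m ∈ box, ((TaskGM.Z a m).natAbs.primeFactors.card : ℝ) ≤
      box.card * (3 * (T * R * L)) := by
    rw [← nsmul_eq_mul]
    apply Finset.sum_le_card_nsmul
    intro m hm
    rw [hbox, Finset.mem_filter, Fintype.mem_piFinset] at hm
    refine TaskGM.card_Z hR hL hb T hT1 (fun i => ?_) (TaskGM.Z_ne ha m hm.2)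
    have := hm.1 i
    rw [Finset.mem_Icc] at this
    exact abs_le.2 this
  have hboxc : (box.card : ℝ) ≤ (3 * T) ^ R := by
    have h1 : box.card ≤ (2 * T + 1) ^ R := by
      refine (Finset.card_filter_le _ _).trans (le_of_eq ?_)
      rw [Fintype.card_piFinset_const, Int.card_Icc]
      congr 1
      omega
    have h2 : (box.card : ℝ) ≤ (2 * T + 1) ^ R := by exact_mod_cast h1
    refine h2.trans (pow_le_pow_left₀ (by positivity) ?_ R)
    have : (1:ℝ) ≤ T := by exact_mod_cast hT1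
    linarith
  have hTR : (T:ℝ) ^ (R + 1) ≤ y ^ (1 + 1 / (R:ℝ)) := by
    calc (T:ℝ) ^ (R + 1) ≤ (y ^ (1 / (R:ℝ))) ^ (R + 1) :=
          pow_le_pow_left₀ (by positivity) hTle _
      _ = y ^ (1 + 1 / (R:ℝ)) := by
          rw [← Real.rpow_natCast, ← Real.rpow_mul (by linarith)]
          congr 1
          push_cast
          field_simp
  have hTRL : (0:ℝ) ≤ 3 * (T * R * L) := by
    have : (0:ℝ) ≤ L := by linarith
    positivity
  calc ((com a x y).card : ℝ) ≤ box.card * (3 * (T * R * L)) := hcard1.trans hcard2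
    _ ≤ (3 * T) ^ R * (3 * (T * R * L)) := mul_le_mul_of_nonneg_right hboxc hTRL
    _ = 3 ^ (R + 1) * R * (T:ℝ) ^ (R + 1) * L := by rw [mul_pow]; ring
    _ ≤ 3 ^ (R + 1) * R * y ^ (1 + 1 / (R:ℝ)) * L := by
        apply mul_le_mul_of_nonneg_right _ (by linarith)
        exact mul_le_mul_of_nonneg_left hTR (by positivity)

end Pool.Agent.H442R2.AO
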