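import Pool.Agent.H442R2.AO.Defs

/-!
Task IX of the project AO (helper99).
-/

namespace Pool.Agent.H442R2.AO

open Finset

theorem IX : St_IX := by
  classical
  intro δ δ' x p a hp hs hlt
  have hp1 := Finset.mem_filter.1 hp
  obtain ⟨hpP, hna, hord⟩ := hp1
  have hpp : p.Prime := (Finset.mem_filter.1 hpP).2
  have : Fact p.Prime := ⟨hpp⟩
  have ha0 : (a : ZMod p) ≠ 0 := by
    intro h
    exact hna ((ZMod.intCast_zmod_eq_zero_iff_dvd a p).1 h)
  have h1 : (a : ZMod p) ^ (p - 1) = 1 := ZMod.pow_card_sub_one_eq_one ha0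
  have hp2 : 2 ≤ p := hpp.two_le
  obtain ⟨o, ho⟩ : ∃ o : ℕ, o = orderOf (a : ZMod p) := ⟨_, rfl⟩
  rw [← ho] at hord
  obtain ⟨i, hi⟩ : o ∣ p - 1 := by
    rw [ho]
    exact orderOf_dvd_of_pow_eq_one h1
  have hao : (a : ZMod p) ^ o = 1 := by
    rw [ho]
    exact pow_orderOf_eq_one _
  by_contra hcon
  push Not at hcon
  apply hs
  unfold smo
  rw [Finset.mem_filter]
  refine ⟨hpP, i, ⟨o, by rw [hi, mul_comm]⟩, ?_, ?_⟩
  · intro q hq hqi
    by_contra hlt'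
    push Not at hlt'
    obtain ⟨j, hj⟩ := hqi
    have he : p - 1 = q * (o * j) := by
      rw [hi, hj]
      ring
    refine hcon q hq hlt' ⟨o * j, he⟩ ?_
    rw [he, Nat.mul_div_cancel_left _ hq.pos, pow_mul, hao, one_pow]
  · have hpr : (p : ℝ) - 1 = o * i := by
      have : ((p - 1 : ℕ) : ℝ) = (p : ℝ) - 1 := by
        rw [Nat.cast_sub (by omega), Nat.cast_one]
      rw [← this, hi, Nat.cast_mul]
    have hpos : (0 : ℝ) < (p : ℝ) ^ (1 - δ) := Real.rpow_pos_of_pos (by exact_mod_cast hpp.pos) _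
    rw [hpr] at hlt
    have h2 : (o : ℝ) * i ≤ (p : ℝ) ^ (1 - δ) * i :=
      mul_le_mul_of_nonneg_right hord (Nat.cast_nonneg i)
    have h3 : (p : ℝ) ^ (1 - δ) * (x : ℝ) ^ (δ / 2) < (p : ℝ) ^ (1 - δ) * i := by
      rw [mul_comm ((p : ℝ) ^ (1 - δ)) ((x : ℝ) ^ (δ / 2))]
      exact lt_of_lt_of_le hlt h2
    exact lt_of_mul_lt_mul_left h3 hpos.le

end Pool.Agent.H442R2.AO
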