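import Pool.Agent.H442R2.AO.Defs

/-!
AO project, task PF: number of large prime factors.
-/

namespace Pool.Agent.H442R2.AO

open Finset

theorem PF : St_PF := by
  intro x δ' hx hδ n hn hnx
  set F : Finset ℕ := (n.primeFactors).filter (fun q : ℕ => (x : ℝ) ^ δ' < q) with hF
  have hx1 : (1 : ℝ) < (x : ℝ) := by
    have : (2 : ℝ) ≤ (x : ℝ) := by exact_mod_cast hx
    linarith
  have hx0 : (0 : ℝ) ≤ (x : ℝ) := by linarith
  have h1 : (∏ q ∈ F, (q : ℝ)) ≤ (n : ℝ) := by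
    have hd : (∏ q ∈ F, q) ∣ n :=
      (Finset.prod_dvd_prod_of_subset F n.primeFactors (fun q => q)
        (Finset.filter_subset _ _)).trans (Nat.prod_primeFactors_dvd n)
    have hle : (∏ q ∈ F, q) ≤ n := Nat.le_of_dvd (by omega) hd
    have hc : ((∏ q ∈ F, q : ℕ) : ℝ) ≤ (n : ℝ) := by exact_mod_cast hle
    rw [Nat.cast_prod] at hc
    exact hc
  have h2 : ((x : ℝ) ^ δ') ^ F.card ≤ ∏ q ∈ F, (q : ℝ) := by
    rw [← Finset.prod_const]
    apply Finset.prod_le_prod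
    · intro q _
      exact Real.rpow_nonneg hx0 _
    · intro q hq
      exact le_of_lt (Finset.mem_filter.1 hq).2
  have h3 : (x : ℝ) ^ (δ' * (F.card : ℝ)) ≤ (x : ℝ) ^ (1 : ℝ) := by
    rw [Real.rpow_mul hx0, Real.rpow_natCast, Real.rpow_one]
    have h4 : (n : ℝ) ≤ (x : ℝ) := by exact_mod_cast hnx
    exact h2.trans (h1.trans h4)
  have h5 : δ' * (F.card : ℝ) ≤ 1 := (Real.rpow_le_rpow_left_iff hx1).1 h3
  linarith [mul_comm δ' (F.card : ℝ)]

end Pool.Agent.H442R2.AO
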