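import Pool.Agent.H442R2.AO.Sm
import Pool.Agent.H442R2.AO.Ix
import Pool.Agent.H442R2.AO.Gm
import Pool.Agent.H442R2.AO.Pf
import Pool.Agent.H442R2.AO.Fi

/-! AO project: assembly. -/

namespace Pool.Agent.H442R2.AO

theorem FI_thm : St_FI := FI SM IX GM PF

end Pool.Agent.H442R2.AO
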