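import Mathlib

/-!
AO project (helper442): definitions and statements.

Multiplicative orders beyond the square root barrier for all but boundedly many bases: in every
multiplicatively independent family of `K ≥ C/(κ³δ²)` integers one member `a` has order
`> p^(1-δ)` modulo all but `κ π(x)` of the primes `p ≤ x`.

Every `St_X` below is the statement of one task; the doc comment is its complete proof.
-/

namespace Pool.Agent.H442R2.AO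

open Finset

/-- the primes up to `x` -/
def PP (x : ℕ) : Finset ℕ := (Icc 1 x).filter Nat.Prime

/-- multiplicatively independent integers -/
def MI {ι : Type*} [Fintype ι] (a : ι → ℤ) : Prop :=
  (∀ i, a i ≠ 0) ∧ ∀ m : ι → ℤ, ∏ i, (a i : ℚ) ^ (m i) = 1 → m = 0

/-- the primes `p ≤ x`, not dividing `a`, modulo which `a` has order at most `p^(1-δ)` -/
noncomputable def bad (δ : ℝ) (x : ℕ) (a : ℤ) : Finset ℕ :=
  (PP x).filter (fun p : ℕ => ¬ (p : ℤ) ∣ a ∧ (orderOf (a : ZMod p) : ℝ) ≤ (p : ℝ) ^ (1 - δ))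

open Classical in
/-- the primes `p ≤ x` such that `p - 1` has an `x^δ'`-smooth divisor exceeding `x^(δ/2)` -/
noncomputable def smo (δ δ' : ℝ) (x : ℕ) : Finset ℕ :=
  (PP x).filter (fun p : ℕ => ∃ s : ℕ, s ∣ p - 1 ∧
    (∀ q : ℕ, q.Prime → q ∣ s → (q : ℝ) ≤ (x : ℝ) ^ δ') ∧ (x : ℝ) ^ (δ / 2) < s)

open Classical in
/-- the primes `p ≤ x` modulo which all `a i` have a common exponent `1 ≤ M ≤ y` -/
noncomputable def com {R : ℕ} (a : Fin R → ℤ) (x : ℕ) (y : ℝ) : Finset ℕ :=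
  (PP x).filter (fun p : ℕ => ∃ M : ℕ, 1 ≤ M ∧ (M : ℝ) ≤ y ∧ ∀ i, (a i : ZMod p) ^ M = 1)

/-- **SM** (file `Sm.lean`, theorem `SM : St_SM`; use
`Pool.Agent.Helper602.MK.BTLib.brun_titchmarsh` (file `Pool/Agent/Helper602/MK/J3.lean`, check its
namespace) and Mertens `∑_{q ≤ z} log q/q ≤ log z + C` (files `Pool/Agent/H305R2/Mertens*.lean`)).

Proof.  `z = x^δ'`.  If `s ∣ n = p - 1` is `z`-smooth then `log s = ∑ log q` over the prime powers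
`q^k ∣ s`, `k ≥ 1`, so `log s ≤ ∑_{q ≤ z} ∑_{k ≥ 1, q^k ∣ n} log q` (`n ≥ 1`; for `p = 2`, `n = 1`,
`s = 1` is not `> x^(δ/2)`).  Hence `(δ/2) log x #smo ≤ ∑_{q ≤ z, k} log q #{p ≤ x : q^k ∣ p - 1}`,
the sum over `q^k ≤ x`.
(i) `q^k ≤ √x`: `p = 1 + j q^k`, `j < N = ⌊x/q^k⌋ + 1`, Brun–Titchmarsh: the number of such `p` is
`≤ C (q^k/φ(q^k)) N/log N ≤ 8 C x/(q^k log x)` (`q^k/φ(q^k) ≤ 2`, `N ≤ 2x/q^k`,
`log N ≥ (log x)/2`); and `∑_{q ≤ z} ∑_{k ≥ 1} log q/q^k ≤ log z + C₂` (Mertens and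
`∑_q log q/(q (q-1)) < ∞`), total `≤ 8 C δ' x + 8 C C₂ x/log x`.
(ii) `q^k > √x`, `q ≤ z ≤ x^(1/4)`: the number of `p ≤ x` with `q^k ∣ p - 1` is `≤ x/q^k`; for given
`q` the sum over these `k` is `≤ 2 x/√x`; there are `≤ x^(1/4)` primes `q`, so the total is
`≤ 2 x^(3/4) log x`.
So `(δ/2) log x #smo ≤ 9 C δ' x` for `x ≥ x₀(δ')`. -/
def St_SM : Prop := ∃ C : ℝ, 1 ≤ C ∧ ∀ δ δ' : ℝ, 0 < δ → δ ≤ 1 → 0 < δ' → δ' ≤ 1 / 4 →
    ∃ x₀ : ℕ, ∀ x : ℕ, x₀ ≤ x → ((smo δ δ' x).card : ℝ) ≤ C * (δ' / δ) * (x / Real.log x)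

/-- **IX** (file `Ix.lean`, theorem `IX : St_IX`).

Proof.  `o = orderOf (a : ZMod p)` divides `p - 1` (`ZMod.orderOf_dvd_card_sub_one` or
`ZMod.pow_card_sub_one_eq_one` with `a ≠ 0`).  `i = (p - 1)/o`, so `i o = p - 1` and
`i ≥ (p - 1)/p^(1-δ) > x^(δ/2)`.  If all primes dividing `i` were `≤ x^δ'`, then `i` would be a
smooth divisor of `p - 1` larger than `x^(δ/2)`, i.e. `p ∈ smo δ δ' x`.  So there is a prime
`q ∣ i`, `q > x^δ'`; `(p - 1)/q = o (i/q)` and `a^((p-1)/q) = 1`. -/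
def St_IX : Prop := ∀ (δ δ' : ℝ) (x p : ℕ) (a : ℤ), p ∈ bad δ x a → p ∉ smo δ δ' x →
    (x : ℝ) ^ (δ / 2) * (p : ℝ) ^ (1 - δ) < (p : ℝ) - 1 →
    ∃ q : ℕ, q.Prime ∧ (x : ℝ) ^ δ' < q ∧ q ∣ p - 1 ∧ (a : ZMod p) ^ ((p - 1) / q) = 1

/-- **GM** (file `Gm.lean`, theorem `GM : St_GM`).  The argument of Gupta and Murty.

Proof.  `T = ⌊y^(1/R)⌋ ≥ 1`, so `(T + 1)^R > y`.  Let `p ∈ com a x y`, with `M ≤ y`.  The
`(T+1)^R > M` tuples `n ∈ [0, T]^R` give elements `∏ (a i : ZMod p)^(n i)` of the set of the roots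
of `X^M = 1` in the field `ZMod p`, which has at most `M` elements (`Polynomial.card_nthRoots`, or
`card_nthRootsFinset`...), so two different tuples `n ≠ n'` give the same element (pigeonhole).  Let
`m = n - n' ∈ [-T, T]^R`, `m ≠ 0`.  All `a i` are units mod `p` (`M ≥ 1`), so `p` divides
`Z(m) = ∏ (a i)^((m i).toNat) - ∏ (a i)^((- m i).toNat)`, an integer `≠ 0` (otherwise
`∏ (a i : ℚ)^(m i) = 1` and `m = 0` by `MI a`) with `|Z(m)| ≤ 2 exp(T R L)`; the number of primes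
dividing a nonzero integer `Z` is `≤ log |Z|/log 2` (`2^ω ≤ |Z|`), so `≤ 4 T R L`.  There are at
most `(2T+1)^R ≤ (3T)^R` such `m`, in total `≤ 4 R 3^R T^(R+1) L ≤ 4 R 3^R y^(1+1/R) L` primes. -/
def St_GM : Prop := ∀ R : ℕ, 1 ≤ R → ∃ C : ℝ, 0 < C ∧ ∀ (y L : ℝ), 1 ≤ y → 1 ≤ L →
    ∀ (x : ℕ) (a : Fin R → ℤ), MI a → (∀ i, |(a i : ℝ)| ≤ Real.exp L) →
    ((com a x y).card : ℝ) ≤ C * y ^ (1 + 1 / (R : ℝ)) * L

/-- **PF** (file `Pf.lean`, theorem `PF : St_PF`).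

Proof.  The product of these primes divides `n ≤ x` and is `≥ (x^δ')^(number)`; so
`x^(δ' number) ≤ x` and `δ' number ≤ 1` as `x > 1`. -/
def St_PF : Prop := ∀ (x : ℕ) (δ' : ℝ), 2 ≤ x → 0 < δ' → ∀ n : ℕ, 1 ≤ n → n ≤ x →
    (((n.primeFactors).filter (fun q : ℕ => (x : ℝ) ^ δ' < q)).card : ℝ) * δ' ≤ 1

/-- **FI** (file `Fi.lean`, theorem `FI (hSM : St_SM) (hIX : St_IX) (hGM : St_GM) (hPF : St_PF) :
St_FI`).  You also need Chebyshev's bound `π(x) ≥ c x/log x` (`(PP x).card = π(x)`; for example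
from the prime number theorem or Chebyshev in the library, e.g. `pi_lower` used in
`Pool/Agent/H386R2/Artin/SumH.lean`, or Mathlib's `Chebyshev` file).

Proof.  Let `(PP x).card ≥ c₀ x/log x` for `x ≥ 2`, `c₀ ≤ 1`, `C₁` the constant of SM.  Let
`δ' = c₀ κ δ/(4 C₁)` (`≤ 1/4`), `R = ⌈2/δ'⌉`, `η = δ'/4`, `C = 6 (4 C₁/c₀)²`.
Suppose that all `i : Fin K` have `#bad > κ π(x)`.  Let `Exc` be the union of
(a) the primes `≤ x/(log x)²`; at most `x/(log x)² ≤ (κ/8) π(x)`,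
(b) `smo δ δ' x`; at most `C₁ (δ'/δ) x/log x ≤ (κ/4) π(x)`,
(c) the sets `com (a ∘ f) x (x^(1-δ'))` over the injective `f : Fin R → Fin K`; each has at most
`C x^((1-δ')(1+1/R)) x^η ≤ C x^(1-δ'/4)` elements (`(1-δ')(1+δ'/2) ≤ 1 - δ'/2`; `MI (a ∘ f)` follows
from `MI a` by extending `m` by zero), and there are at most `K^R` of them; so at most
`(κ/8) π(x)` for `x ≥ x₀(K, δ, κ)`.
So `#Exc ≤ (κ/2) π(x)`.  Let `p ∈ PP x`, `p ∉ Exc`, `S_p = {i : p ∈ bad δ x (a i)}`.  As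
`p > x/(log x)²`, `x^(δ/2) p^(1-δ) < p - 1` for `x ≥ x₀` (`p^δ ≥ x^δ/(log x)^2 ≥ 2 x^(δ/2)` and
`p - 1 ≥ p/2`, with strict inequality somewhere).  IX gives for every `i ∈ S_p` a prime `q_i`,
`x^δ' < q_i ∣ p - 1`, `a_i^((p-1)/q_i) = 1`.  By PF there are at most `1/δ'` such primes; if a prime
`q` were `q_i` for at least `R` of the `i`, then `p ∈ com (a ∘ f) x (x^(1-δ'))` with
`M = (p-1)/q ≤ x/x^δ'` for some injective `f`, a contradiction.  So `#S_p ≤ R/δ' ≤ 3/δ'²`.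
Summing over `p`: `K κ π(x) < ∑_i #bad = ∑_p #S_p ≤ K #Exc + (3/δ'²) π(x) ≤ (κ/2) K π(x) +
(3/δ'²) π(x)`, so `K < 6/(κ δ'²) = C/(κ³ δ²)`, a contradiction (`K ≥ 1` is clear from `K ≥
C/(κ³δ²) > 0`). -/
def St_FI : Prop := ∃ C : ℝ, 0 < C ∧ ∀ δ κ : ℝ, 0 < δ → δ ≤ 1 → 0 < κ → κ ≤ 1 →
    ∀ K : ℕ, C / (κ ^ 3 * δ ^ 2) ≤ K → ∃ η : ℝ, 0 < η ∧ ∃ x₀ : ℕ, ∀ x : ℕ, x₀ ≤ x →
    ∀ a : Fin K → ℤ, MI a → (∀ i, |(a i : ℝ)| ≤ Real.exp ((x : ℝ) ^ η)) →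
    ∃ i, ((bad δ x (a i)).card : ℝ) ≤ κ * (PP x).card

end Pool.Agent.H442R2.AO
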