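import Pool.Agent.H442R2.AO.Defs
import Pool.Agent.Helper602.MK.J3
import Pool.Agent.Helper601.Mertens

/-!
Task SM of the project AO (helper99).
-/

namespace Pool.Agent.H442R2.AO

namespace TaskSM

open Finset

/-- the number of primes `p ≤ x` with `m ∣ p - 1` -/
def A (m x : ℕ) : ℕ := ((PP x).filter (fun p => m ∣ p - 1)).card

theorem mem_PP {x p : ℕ} : p ∈ PP x ↔ p.Prime ∧ p ≤ x := by
  unfold PP
  rw [mem_filter, mem_Icc]
  constructor
  · rintro ⟨⟨h1, h2⟩, h3⟩
    exact ⟨h3, h2⟩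
  · rintro ⟨h1, h2⟩
    exact ⟨⟨h1.one_lt.le, h2⟩, h1⟩

theorem A_zero {m x : ℕ} (h : x < m) : A m x = 0 := by
  unfold A
  rw [card_eq_zero, filter_eq_empty_iff]
  intro p hp hd
  obtain ⟨h1, h2⟩ := mem_PP.1 hp
  have h3 := h1.two_le
  have h4 := Nat.le_of_dvd (by omega) hd
  omega

theorem A_inj {m x : ℕ} (hm : 0 < m) :
    Set.InjOn (fun p : ℕ => (p - 1) / m) ((PP x).filter (fun p => m ∣ p - 1) : Finset ℕ) := by
  intro p hp p' hp' he
  rw [mem_coe, mem_filter] at hp hp'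
  obtain ⟨hp, j, hj⟩ := hp
  obtain ⟨hp', j', hj'⟩ := hp'
  have h1 := (mem_PP.1 hp).1.two_le
  have h2 := (mem_PP.1 hp').1.two_le
  have he' : (p - 1) / m = (p' - 1) / m := he
  rw [hj, hj', Nat.mul_div_cancel_left _ hm, Nat.mul_div_cancel_left _ hm] at he'
  rw [he', ← hj'] at hj
  omega

theorem A_le {m x : ℕ} (hm : 0 < m) : (A m x : ℝ) ≤ x / m := by
  have h : A m x ≤ (Icc 1 (x / m)).card := by
    unfold A
    refine card_le_card_of_injOn (fun p => (p - 1) / m) ?_ (A_inj hm)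
    intro p hp
    rw [mem_coe, mem_filter] at hp
    obtain ⟨hp, j, hj⟩ := hp
    obtain ⟨h1, h2⟩ := mem_PP.1 hp
    have h3 := h1.two_le
    rw [mem_coe, mem_Icc]
    show 1 ≤ (p - 1) / m ∧ (p - 1) / m ≤ x / m
    constructor
    · rw [hj, Nat.mul_div_cancel_left _ hm]
      rcases Nat.eq_zero_or_pos j with h | h
      · rw [h, mul_zero] at hj
        omega
      · exact h
    · exact Nat.div_le_div_right (by omega)
  rw [Nat.card_Icc, Nat.add_sub_cancel] at h
  calc (A m x : ℝ) ≤ ((x / m : ℕ) : ℝ) := by exact_mod_cast h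
    _ ≤ x / m := Nat.cast_div_le

/-- the Brun–Titchmarsh hypothesis -/
def BT (C : ℝ) : Prop := ∀ (a q N : ℕ), 1 ≤ q → 2 ≤ N →
    (((Finset.range N).filter (fun k => (a + k * q).Prime)).card : ℝ) ≤
      C * ((q : ℝ) / (Nat.totient q : ℝ)) * N / Real.log N

theorem A_bt {C : ℝ} (hC1 : 1 ≤ C) (hC : BT C) {q k x : ℕ} (hq : q.Prime) (hk : 1 ≤ k)
    (hx : 2 ≤ x) (hm : q ^ k * q ^ k ≤ x) :
    (A (q ^ k) x : ℝ) ≤ 8 * C * (x / Real.log x) * (1 / (q : ℝ)) ^ k := by
  obtain ⟨m, hmd⟩ : ∃ m : ℕ, m = q ^ k := ⟨_, rfl⟩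
  have hmR : (1 / (q : ℝ)) ^ k = 1 / (m : ℝ) := by
    rw [hmd, div_pow, one_pow, Nat.cast_pow]
  rw [hmR, ← hmd]
  rw [← hmd] at hm
  have hm0 : 0 < m := by
    rw [hmd]
    exact pow_pos hq.pos k
  have hm0' : (0 : ℝ) < m := by exact_mod_cast hm0
  have hmx : m ≤ x := le_trans (Nat.le_mul_of_pos_left m hm0) hm
  obtain ⟨N, hNd⟩ : ∃ N : ℕ, N = x / m + 1 := ⟨_, rfl⟩
  have hd1 : 1 ≤ x / m := Nat.div_pos hmx hm0
  have hN : 2 ≤ N := by omega
  have h1 : A m x ≤ ((range N).filter (fun k => (1 + k * m).Prime)).card := by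
    unfold A
    refine card_le_card_of_injOn (fun p => (p - 1) / m) ?_ (A_inj hm0)
    intro p hp
    rw [mem_coe, mem_filter] at hp
    obtain ⟨hp, j, hj⟩ := hp
    obtain ⟨h1, h2⟩ := mem_PP.1 hp
    have h3 := h1.two_le
    rw [mem_coe, mem_filter, mem_range]
    show (p - 1) / m < N ∧ (1 + (p - 1) / m * m).Prime
    constructor
    · have : (p - 1) / m ≤ x / m := Nat.div_le_div_right (by omega)
      omega
    · rw [Nat.div_mul_cancel ⟨j, hj⟩]
      have : 1 + (p - 1) = p := by omega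
      rw [this]
      exact h1
  have h2 := hC 1 m N hm0 hN
  have hφ0 : 0 < Nat.totient m := Nat.totient_pos.2 hm0
  have hφ0' : (0 : ℝ) < Nat.totient m := by exact_mod_cast hφ0
  have h3 : (m : ℝ) / (Nat.totient m : ℝ) ≤ 2 := by
    rw [div_le_iff₀ hφ0']
    have : m ≤ 2 * Nat.totient m := by
      rw [hmd, Nat.totient_prime_pow hq hk]
      obtain ⟨k', rfl⟩ : ∃ k', k = k' + 1 := ⟨k - 1, by omega⟩
      rw [Nat.add_sub_cancel, pow_succ]
      have h5 := hq.two_le
      have h6 : q ≤ 2 * (q - 1) := by omega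
      calc q ^ k' * q ≤ q ^ k' * (2 * (q - 1)) := Nat.mul_le_mul_left _ h6
        _ = 2 * (q ^ k' * (q - 1)) := by ring
    exact_mod_cast this
  have hx0 : (0 : ℝ) < x := by
    have : (2 : ℝ) ≤ x := by exact_mod_cast hx
    linarith
  have hlx : 0 < Real.log x := Real.log_pos (by
    have : (2 : ℝ) ≤ x := by exact_mod_cast hx
    linarith)
  have h4 : (N : ℝ) ≤ 2 * (x / m) := by
    have h5 : ((x / m : ℕ) : ℝ) ≤ x / m := Nat.cast_div_le
    have h6 : (1 : ℝ) ≤ x / m := by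
      rw [le_div_iff₀ hm0', one_mul]
      exact_mod_cast hmx
    rw [hNd, Nat.cast_add, Nat.cast_one]
    linarith
  have hN0 : (0 : ℝ) < N := by
    have : (2 : ℝ) ≤ N := by exact_mod_cast hN
    linarith
  have h5 : Real.log x / 2 ≤ Real.log N := by
    have h6 : x < m * N := by
      have := Nat.div_add_mod x m
      have := Nat.mod_lt x hm0
      rw [hNd]
      nlinarith
    have h6' : (x : ℝ) < m * N := by exact_mod_cast h6
    have h7 : (m : ℝ) * m ≤ x := by exact_mod_cast hm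
    have h8 : (x : ℝ) ≤ (N : ℝ) ^ 2 := by
      by_contra hcon
      push Not at hcon
      have e1 : (x : ℝ) * x < (m * N) * (m * N) := by
        apply mul_lt_mul'' h6' h6' hx0.le hx0.le
      have e2 : (m : ℝ) * N * (m * N) = (m * m) * (N : ℝ) ^ 2 := by ring
      have e3 : (m : ℝ) * m * (N : ℝ) ^ 2 ≤ x * x := by
        apply mul_le_mul h7 hcon.le (by positivity) hx0.le
      linarith
    have h9 := Real.log_le_log hx0 h8
    rw [Real.log_pow] at h9
    push_cast at h9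
    linarith
  have hlN : 0 < Real.log N := by linarith
  calc (A m x : ℝ) ≤ (((range N).filter (fun k => (1 + k * m).Prime)).card : ℝ) := by
        exact_mod_cast h1
    _ ≤ C * ((m : ℝ) / (Nat.totient m : ℝ)) * N / Real.log N := h2
    _ ≤ C * 2 * (2 * (x / m)) / (Real.log x / 2) := by
        have hC0 : 0 ≤ C := by linarith
        gcongr
    _ = 8 * C * (x / Real.log x) * (1 / (m : ℝ)) := by
        field_simp
        ring

theorem per_q {C : ℝ} (hC1 : 1 ≤ C) (hC : BT C) {q x : ℕ} (hq : q.Prime) (hx : 2 ≤ x) :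
    ∑ k ∈ Icc 1 x, Real.log q * (A (q ^ k) x : ℝ) ≤
      16 * C * (x / Real.log x) * (Real.log q / q) + Real.sqrt x * Real.log x := by
  have hx2 : (2 : ℝ) ≤ x := by exact_mod_cast hx
  have hx0 : (0 : ℝ) < x := by linarith
  have hlx : 0 < Real.log x := Real.log_pos (by linarith)
  have hq2 : (2 : ℝ) ≤ q := by exact_mod_cast hq.two_le
  have hq0 : (0 : ℝ) < q := by linarith
  have hlq : 0 < Real.log q := Real.log_pos (by linarith)
  have hsx : 0 < Real.sqrt x := Real.sqrt_pos.2 hx0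
  have hC0 : 0 ≤ C := by linarith
  have hterm : ∀ k ∈ Icc 1 x, Real.log q * (A (q ^ k) x : ℝ) ≤
      8 * C * (x / Real.log x) * Real.log q * (1 / (q : ℝ)) ^ k +
      (if q ^ k ≤ x then Real.sqrt x * Real.log q else 0) := by
    intro k hk
    rw [mem_Icc] at hk
    have hp1 : 0 ≤ 8 * C * (x / Real.log x) * Real.log q * (1 / (q : ℝ)) ^ k := by positivity
    have hp2 : 0 ≤ (if q ^ k ≤ x then Real.sqrt x * Real.log q else 0) := by
      split_ifs
      · positivity
      · exact le_rfl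
    by_cases h1 : q ^ k * q ^ k ≤ x
    · have h2 := A_bt hC1 hC hq hk.1 hx h1
      have h3 := mul_le_mul_of_nonneg_left h2 hlq.le
      have h4 : Real.log q * (8 * C * (x / Real.log x) * (1 / (q : ℝ)) ^ k) =
        8 * C * (x / Real.log x) * Real.log q * (1 / (q : ℝ)) ^ k := by ring
      linarith
    · by_cases h2 : q ^ k ≤ x
      · rw [if_pos h2]
        have hm0 : 0 < q ^ k := pow_pos hq.pos k
        have hm0' : (0 : ℝ) < ((q ^ k : ℕ) : ℝ) := by exact_mod_cast hm0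
        have h3 := A_le (x := x) hm0
        have h4 : (x : ℝ) / ((q ^ k : ℕ) : ℝ) ≤ Real.sqrt x := by
          rw [div_le_iff₀ hm0']
          have h5 : Real.sqrt x ≤ ((q ^ k : ℕ) : ℝ) := by
            apply Real.sqrt_le_iff.2 ⟨hm0'.le, ?_⟩
            push Not at h1
            have : (x : ℝ) < ((q ^ k * q ^ k : ℕ) : ℝ) := by exact_mod_cast h1
            rw [Nat.cast_mul] at this
            nlinarith
          have h6 := Real.mul_self_sqrt hx0.le
          nlinarith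
        have h5 : Real.log q * (A (q ^ k) x : ℝ) ≤ Real.log q * Real.sqrt x :=
          mul_le_mul_of_nonneg_left (h3.trans h4) hlq.le
        linarith
      · rw [A_zero (by omega), Nat.cast_zero, mul_zero]
        linarith
  refine (Finset.sum_le_sum hterm).trans ?_
  rw [Finset.sum_add_distrib, ← Finset.mul_sum]
  have hgeo : ∑ k ∈ Icc 1 x, (1 / (q : ℝ)) ^ k ≤ 2 / q := by
    have h1 : Icc 1 x = Ico 1 (x + 1) := by
      ext k
      rw [mem_Icc, mem_Ico]
      omega
    rw [h1]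
    have hlt : 1 / (q : ℝ) < 1 := by
      rw [div_lt_one hq0]
      linarith
    refine (geom_sum_Ico_le_of_lt_one (by positivity) hlt).trans ?_
    rw [pow_one, div_le_div_iff₀ (by linarith) hq0]
    have : 1 / (q : ℝ) * q = 1 := by field_simp
    rw [this]
    have h2 : 1 / (q : ℝ) ≤ 1 / 2 := one_div_le_one_div_of_le (by norm_num) hq2
    linarith
  have hsec : ∑ k ∈ Icc 1 x, (if q ^ k ≤ x then Real.sqrt x * Real.log q else 0) ≤
      Real.sqrt x * Real.log x := by
    rw [← Finset.sum_filter, Finset.sum_const, nsmul_eq_mul]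
    have h1 : ((Icc 1 x).filter (fun k => q ^ k ≤ x)).card ≤ Nat.log q x := by
      have h2 : (Icc 1 x).filter (fun k => q ^ k ≤ x) ⊆ Icc 1 (Nat.log q x) := by
        intro k hk
        rw [mem_filter, mem_Icc] at hk
        rw [mem_Icc]
        exact ⟨hk.1.1, Nat.le_log_of_pow_le hq.one_lt hk.2⟩
      have h3 := card_le_card h2
      rwa [Nat.card_Icc, Nat.add_sub_cancel] at h3
    have h2 : (Nat.log q x : ℝ) * Real.log q ≤ Real.log x := by
      have h3 : q ^ Nat.log q x ≤ x := Nat.pow_log_le_self q (by omega)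
      have h4 : ((q : ℝ)) ^ Nat.log q x ≤ x := by exact_mod_cast h3
      have h5 := Real.log_le_log (by positivity) h4
      rwa [Real.log_pow] at h5
    have h1' : (((Icc 1 x).filter (fun k => q ^ k ≤ x)).card : ℝ) ≤ Nat.log q x := by
      exact_mod_cast h1
    calc (((Icc 1 x).filter (fun k => q ^ k ≤ x)).card : ℝ) * (Real.sqrt x * Real.log q)
        ≤ Nat.log q x * (Real.sqrt x * Real.log q) :=
          mul_le_mul_of_nonneg_right h1' (by positivity)
      _ = Real.sqrt x * (Nat.log q x * Real.log q) := by ring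
      _ ≤ Real.sqrt x * Real.log x := mul_le_mul_of_nonneg_left h2 hsx.le
  have h1 : 8 * C * (x / Real.log x) * Real.log q * ∑ k ∈ Icc 1 x, (1 / (q : ℝ)) ^ k ≤
      8 * C * (x / Real.log x) * Real.log q * (2 / q) :=
    mul_le_mul_of_nonneg_left hgeo (by positivity)
  have h2 : 8 * C * (x / Real.log x) * Real.log q * (2 / q) =
      16 * C * (x / Real.log x) * (Real.log q / q) := by ring
  linarith

/-- the logarithm of the smooth divisor -/
theorem log_le {δ δ' : ℝ} {x p : ℕ} (hx : 2 ≤ x) (hp : p ∈ smo δ δ' x) :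
    δ / 2 * Real.log x ≤ ∑ q ∈ (Icc 1 ⌊(x : ℝ) ^ δ'⌋₊).filter Nat.Prime, ∑ k ∈ Icc 1 x,
      (if q ^ k ∣ p - 1 then Real.log q else 0) := by
  classical
  unfold smo at hp
  rw [mem_filter] at hp
  obtain ⟨hpP, s, hs, hsm, hsx⟩ := hp
  obtain ⟨hpp, hpx⟩ := mem_PP.1 hpP
  have hp2 := hpp.two_le
  have hx2 : (2 : ℝ) ≤ x := by exact_mod_cast hx
  have hx0 : (0 : ℝ) < x := by linarith
  have hxp : 0 < (x : ℝ) ^ (δ / 2) := Real.rpow_pos_of_pos hx0 _
  have hs0' : (0 : ℝ) < s := hxp.trans hsx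
  have hs0 : s ≠ 0 := by
    intro h
    rw [h, Nat.cast_zero] at hs0'
    exact lt_irrefl _ hs0'
  have h1 : δ / 2 * Real.log x ≤ Real.log s := by
    rw [← Real.log_rpow hx0]
    exact Real.log_le_log hxp hsx.le
  refine h1.trans ?_
  rw [Real.log_nat_eq_sum_factorization, Finsupp.sum, Nat.support_factorization]
  have h2 : ∀ q ∈ s.primeFactors, (s.factorization q : ℝ) * Real.log q ≤
      ∑ k ∈ Icc 1 x, (if q ^ k ∣ p - 1 then Real.log q else 0) := by
    intro q hq
    have hqp : q.Prime := Nat.prime_of_mem_primeFactors hq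
    have hlq : 0 ≤ Real.log q := Real.log_nonneg (by exact_mod_cast hqp.one_lt.le)
    rw [← Finset.sum_filter, Finset.sum_const, nsmul_eq_mul]
    apply mul_le_mul_of_nonneg_right _ hlq
    have h3 : Icc 1 (s.factorization q) ⊆ (Icc 1 x).filter (fun k => q ^ k ∣ p - 1) := by
      intro k hk
      rw [mem_Icc] at hk
      rw [mem_filter, mem_Icc]
      have h4 : s.factorization q < s := Nat.factorization_lt q hs0
      have h5 : s ≤ p - 1 := Nat.le_of_dvd (by omega) hs
      refine ⟨⟨hk.1, by omega⟩, ?_⟩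
      exact (pow_dvd_pow q hk.2).trans ((Nat.ordProj_dvd s q).trans hs)
    have h4 := card_le_card h3
    rw [Nat.card_Icc, Nat.add_sub_cancel] at h4
    exact_mod_cast h4
  refine (Finset.sum_le_sum h2).trans ?_
  apply Finset.sum_le_sum_of_subset_of_nonneg
  · intro q hq
    have hqp : q.Prime := Nat.prime_of_mem_primeFactors hq
    rw [mem_filter, mem_Icc]
    exact ⟨⟨hqp.one_lt.le, Nat.le_floor (hsm q hqp (Nat.dvd_of_mem_primeFactors hq))⟩, hqp⟩
  · intro q hq _
    apply Finset.sum_nonneg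
    intro k _
    have hqp : q.Prime := (mem_filter.1 hq).2
    split_ifs
    · exact Real.log_nonneg (by exact_mod_cast hqp.one_lt.le)
    · exact le_rfl

theorem total {C : ℝ} (hC1 : 1 ≤ C) (hC : BT C) {D : ℝ}
    (hD : ∀ N : ℕ, 1 ≤ N →
    |∑ p ∈ (Finset.Icc 1 N).filter Nat.Prime, Real.log p / p - Real.log N| ≤ D)
    {δ δ' : ℝ} (hδ' : 0 < δ') (hδ'4 : δ' ≤ 1 / 4) {x : ℕ} (hx : 2 ≤ x) :
    (smo δ δ' x).card * (δ / 2 * Real.log x) ≤
      16 * C * (x / Real.log x) * (δ' * Real.log x + D) +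
        (x : ℝ) ^ ((1 : ℝ) / 4) * (Real.sqrt x * Real.log x) := by
  classical
  have hx2 : (2 : ℝ) ≤ x := by exact_mod_cast hx
  have hx0 : (0 : ℝ) < x := by linarith
  have hlx : 0 < Real.log x := Real.log_pos (by linarith)
  obtain ⟨z, hz⟩ : ∃ z : ℕ, z = ⌊(x : ℝ) ^ δ'⌋₊ := ⟨_, rfl⟩
  have hzx : (z : ℝ) ≤ (x : ℝ) ^ δ' := by
    rw [hz]
    exact Nat.floor_le (by positivity)
  have hz1 : 1 ≤ z := by
    rw [hz]
    apply Nat.le_floor
    rw [Nat.cast_one]
    exact Real.one_le_rpow (by linarith) hδ'.le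
  have hz1' : (1 : ℝ) ≤ z := by exact_mod_cast hz1
  have h1 : ((smo δ δ' x).card : ℝ) * (δ / 2 * Real.log x) ≤
      ∑ p ∈ PP x, ∑ q ∈ (Icc 1 z).filter Nat.Prime, ∑ k ∈ Icc 1 x,
      (if q ^ k ∣ p - 1 then Real.log q else 0) := by
    rw [← nsmul_eq_mul, ← Finset.sum_const]
    have h2 : ∑ _p ∈ smo δ δ' x, (δ / 2 * Real.log x) ≤
        ∑ p ∈ smo δ δ' x, ∑ q ∈ (Icc 1 z).filter Nat.Prime, ∑ k ∈ Icc 1 x,
        (if q ^ k ∣ p - 1 then Real.log q else 0) := by
      apply Finset.sum_le_sum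
      intro p hp
      rw [hz]
      exact log_le hx hp
    refine h2.trans ?_
    apply Finset.sum_le_sum_of_subset_of_nonneg
    · unfold smo
      exact filter_subset _ _
    · intro p _ _
      apply Finset.sum_nonneg
      intro q hq
      apply Finset.sum_nonneg
      intro k _
      have hqp : q.Prime := (mem_filter.1 hq).2
      split_ifs
      · exact Real.log_nonneg (by exact_mod_cast hqp.one_lt.le)
      · exact le_rfl
  refine h1.trans ?_
  rw [Finset.sum_comm]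
  have h2 : ∀ q ∈ (Icc 1 z).filter Nat.Prime, ∑ p ∈ PP x, ∑ k ∈ Icc 1 x,
      (if q ^ k ∣ p - 1 then Real.log q else 0) ≤
      16 * C * (x / Real.log x) * (Real.log q / q) + Real.sqrt x * Real.log x := by
    intro q hq
    have hqp : q.Prime := (mem_filter.1 hq).2
    rw [Finset.sum_comm]
    refine le_trans (le_of_eq ?_) (per_q hC1 hC hqp hx)
    refine Finset.sum_congr rfl fun k _ => ?_
    rw [← Finset.sum_filter, Finset.sum_const, nsmul_eq_mul, mul_comm]
    rfl
  refine (Finset.sum_le_sum h2).trans ?_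
  rw [Finset.sum_add_distrib, ← Finset.mul_sum, Finset.sum_const, nsmul_eq_mul]
  have h3 : ∑ q ∈ (Icc 1 z).filter Nat.Prime, Real.log q / q ≤ δ' * Real.log x + D := by
    have h4 := (abs_le.1 (hD z hz1)).2
    have h5 : Real.log z ≤ δ' * Real.log x := by
      rw [← Real.log_rpow hx0]
      exact Real.log_le_log (by linarith) hzx
    linarith
  have h4 : (((Icc 1 z).filter Nat.Prime).card : ℝ) ≤ (x : ℝ) ^ ((1 : ℝ) / 4) := by
    have h5 : ((Icc 1 z).filter Nat.Prime).card ≤ z := by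
      refine (card_filter_le _ _).trans ?_
      rw [Nat.card_Icc, Nat.add_sub_cancel]
    calc (((Icc 1 z).filter Nat.Prime).card : ℝ) ≤ z := by exact_mod_cast h5
      _ ≤ (x : ℝ) ^ δ' := hzx
      _ ≤ (x : ℝ) ^ ((1 : ℝ) / 4) := Real.rpow_le_rpow_of_exponent_le (by linarith) hδ'4
  have hC0 : 0 ≤ C := by linarith
  gcongr

end TaskSM

open TaskSM in
theorem SM : St_SM := by
  obtain ⟨C, hC1, hC⟩ := Pool.Agent.Helper602.MK.BTLib.brun_titchmarsh
  obtain ⟨D, hD⟩ := Pool.Agent.Helper601.Mertens.mertens_log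
  refine ⟨32 * C + 4, by linarith, ?_⟩
  intro δ δ' hδ hδ1 hδ' hδ'4
  have hC0 : 0 ≤ C := by linarith
  have hD0 : 0 ≤ D := (abs_nonneg _).trans (hD 1 le_rfl)
  -- the two conditions for large `x`
  have e1 : ∀ᶠ x : ℕ in Filter.atTop, 16 * C * D / δ' ≤ Real.log x :=
    (Real.tendsto_log_atTop.comp tendsto_natCast_atTop_atTop).eventually_ge_atTop _
  have e2 : ∀ᶠ x : ℕ in Filter.atTop, Real.log x ≤ δ' * (x : ℝ) ^ ((1 : ℝ) / 4) := by
    have h1 := (isLittleO_log_rpow_atTop (r := (1 : ℝ) / 4) (by norm_num)).bound hδ'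
    have h2 := tendsto_natCast_atTop_atTop (R := ℝ) |>.eventually h1
    filter_upwards [h2, Filter.eventually_ge_atTop 1] with x hx hx1
    have hx1' : (1 : ℝ) ≤ x := by exact_mod_cast hx1
    rw [Real.norm_of_nonneg (Real.log_nonneg hx1'), Real.norm_of_nonneg (by positivity)] at hx
    exact hx
  obtain ⟨x₀, hx₀⟩ := Filter.eventually_atTop.1 (e1.and (e2.and (Filter.eventually_ge_atTop 2)))
  refine ⟨x₀, fun x hx => ?_⟩
  obtain ⟨h1, h2, hx2⟩ := hx₀ x hx
  have hx2' : (2 : ℝ) ≤ x := by exact_mod_cast hx2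
  have hx0 : (0 : ℝ) < x := by linarith
  have hlx : 0 < Real.log x := Real.log_pos (by linarith)
  have h3 := total hC1 hC hD (δ := δ) hδ' hδ'4 hx2
  have h4 : 16 * C * (x / Real.log x) * (δ' * Real.log x + D) ≤ 16 * C * δ' * x + δ' * x := by
    have h5 : 16 * C * D ≤ δ' * Real.log x := by
      rw [div_le_iff₀ hδ'] at h1
      linarith
    have h6 : 16 * C * (x / Real.log x) * (δ' * Real.log x + D) =
        16 * C * δ' * x + (16 * C * D) * (x / Real.log x) := by
      field_simp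
    rw [h6]
    have h7 : (16 * C * D) * (x / Real.log x) ≤ (δ' * Real.log x) * (x / Real.log x) := by
      gcongr
    have h8 : (δ' * Real.log x) * (x / Real.log x) = δ' * x := by
      field_simp
    linarith
  have h5 : (x : ℝ) ^ ((1 : ℝ) / 4) * (Real.sqrt x * Real.log x) ≤ δ' * x := by
    have h6 : (x : ℝ) ^ ((1 : ℝ) / 4) * (x : ℝ) ^ ((1 : ℝ) / 4) * Real.sqrt x = x := by
      rw [Real.sqrt_eq_rpow, ← Real.rpow_add hx0, ← Real.rpow_add hx0]
      norm_num
    calc (x : ℝ) ^ ((1 : ℝ) / 4) * (Real.sqrt x * Real.log x)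
        ≤ (x : ℝ) ^ ((1 : ℝ) / 4) * (Real.sqrt x * (δ' * (x : ℝ) ^ ((1 : ℝ) / 4))) := by
          gcongr
      _ = δ' * ((x : ℝ) ^ ((1 : ℝ) / 4) * (x : ℝ) ^ ((1 : ℝ) / 4) * Real.sqrt x) := by ring
      _ = δ' * x := by rw [h6]
  have h6 : ((smo δ δ' x).card : ℝ) * (δ / 2 * Real.log x) ≤ (16 * C + 2) * δ' * x := by
    linarith
  have h7 : (32 * C + 4) * (δ' / δ) * (x / Real.log x) =
      ((16 * C + 2) * δ' * x) / (δ / 2 * Real.log x) := by
    field_simp
    ring
  rw [h7, le_div_iff₀ (by positivity)]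
  exact h6

end Pool.Agent.H442R2.AO
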